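import Mathlib

/-!
# The cup-of-coffee sequence: at most one radical is missing
-/

open Filter

namespace Pool.Agent.Results.MP_ab534e_nt.OneRadical

/-- `m` is a positive integer outside `used`, divisible by every prime that divides `y` but not
`x`, and by no prime that divides both `y` and `x`. -/
def Admissible (used : Set ℕ) (x y m : ℕ) : Prop :=
  0 < m ∧ m ∉ used ∧
  (∀ p, p.Prime → p ∣ y → ¬ p ∣ x → p ∣ m) ∧
  (∀ p, p.Prime → p ∣ y → p ∣ x → ¬ p ∣ m)

/-- `a 1, a 2, a 3, …` is the cup-of-coffee sequence (the value `a 0` is irrelevant). -/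
structure IsCoffee (a : ℕ → ℕ) : Prop where
  one : a 1 = 1
  two : a 2 = 2
  step : ∀ n, 3 ≤ n →
    IsLeast {m | Admissible {x | ∃ i, 1 ≤ i ∧ i < n ∧ a i = x} (a (n - 2)) (a (n - 1)) m} (a n)

/-- The combinatorial core of the sequence. -/
structure Core (s : ℕ → ℕ) (A : ℕ → Finset ℕ) : Prop where
  pos : ∀ n, 0 < s n
  inj : Function.Injective s
  fac : ∀ n, (s (n + 2)).primeFactors = A n ∪ A (n + 1)
  d1 : ∀ n, Disjoint (A n) (A (n + 1))
  d2 : ∀ n, Disjoint (A n) (A (n + 2))
  greedy : ∀ n m, 0 < m → (∀ i < n + 3, s i ≠ m) → A (n + 1) ⊆ m.primeFactors →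
    Disjoint m.primeFactors (A n) → s (n + 3) ≤ m

/-- The set of primes `P` is admissible at the choice of `s (n + 3)`. -/
def Elig (A : ℕ → Finset ℕ) (P : Finset ℕ) (n : ℕ) : Prop :=
  A (n + 1) ⊆ P ∧ Disjoint P (A n)

variable {s : ℕ → ℕ} {A : ℕ → Finset ℕ}

lemma used_of_freq (h : Core s A) {m : ℕ} (hm : 0 < m)
    (hf : ∃ᶠ n in atTop, Elig A m.primeFactors n) : ∃ i, s i = m := by
  by_contra hne
  push Not at hne
  have h1 : {n | s (n + 3) ≤ m}.Infinite := Nat.frequently_atTop_iff_infinite.1
    (hf.mono fun n hn => h.greedy n m hm (fun i _ => hne i) hn.1 hn.2)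
  have h2 : {n | s (n + 3) ≤ m}.Finite := by
    have : Set.InjOn (fun n => s (n + 3)) ((fun n => s (n + 3)) ⁻¹' Set.Iic m) := by
      intro x _ y _ hxy
      have := h.inj hxy
      omega
    exact (Set.finite_Iic m).preimage this
  exact h1 h2

lemma elig_of_eq (h : Core s A) {n : ℕ} {P : Finset ℕ} (hP : (s (n + 3)).primeFactors = P) :
    Elig A P n := by
  have h1 : (s (n + 3)).primeFactors = A (n + 1) ∪ A (n + 2) := h.fac (n + 1)
  rw [← hP, h1]
  refine ⟨Finset.subset_union_left, ?_⟩
  rw [Finset.disjoint_union_left]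
  exact ⟨(h.d1 n).symm, (h.d2 n).symm⟩

lemma freq_of_infinite {P : Finset ℕ}
    (hinf : {m | (∃ i, s i = m) ∧ m.primeFactors = P}.Infinite) :
    ∃ᶠ n in atTop, (s (n + 3)).primeFactors = P := by
  rw [Nat.frequently_atTop_iff_infinite]
  intro hfin
  apply hinf
  have h1 : {m | (∃ i, s i = m) ∧ m.primeFactors = P} ⊆
      s '' ({0, 1, 2} ∪ (fun n => n + 3) '' {n | (s (n + 3)).primeFactors = P}) := by
    rintro m ⟨⟨i, rfl⟩, hi⟩
    refine ⟨i, ?_, rfl⟩
    by_cases h3 : i < 3
    · left
      simp only [Set.mem_insert_iff, Set.mem_singleton_iff]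
      omega
    · right
      refine ⟨i - 3, ?_, by simp only; omega⟩
      have : i - 3 + 3 = i := by omega
      show (s (i - 3 + 3)).primeFactors = P
      rw [this, hi]
  refine Set.Finite.subset (Set.Finite.image _ (Set.Finite.union ?_ (hfin.image _))) h1
  exact Set.toFinite _

lemma infinite_of_primes {P : Finset ℕ} (hP : ∀ p ∈ P, p.Prime) (hne : P.Nonempty) :
    {m : ℕ | m.primeFactors = P ∧ 0 < m}.Infinite := by
  have hpos : 0 < ∏ p ∈ P, p := Finset.prod_pos fun p hp => (hP p hp).pos
  have hgt : 1 < ∏ p ∈ P, p := by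
    obtain ⟨q, hq⟩ := hne
    have : q ∣ ∏ p ∈ P, p := Finset.dvd_prod_of_mem _ hq
    exact lt_of_lt_of_le (hP q hq).one_lt (Nat.le_of_dvd hpos this)
  refine Set.infinite_of_injective_forall_mem (f := fun j : ℕ => (∏ p ∈ P, p) ^ (j + 1)) ?_ ?_
  · intro i j hij
    have := Nat.pow_right_injective hgt hij
    omega
  · intro j
    refine ⟨?_, pow_pos hpos _⟩
    rw [Nat.primeFactors_pow _ (Nat.succ_ne_zero j), Nat.primeFactors_prod hP]

lemma prime_of_mem (h : Core s A) {n p : ℕ} (hp : p ∈ A n) : p.Prime := by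
  have : p ∈ (s (n + 2)).primeFactors := by
    rw [h.fac n]
    exact Finset.mem_union_left _ hp
  exact Nat.prime_of_mem_primeFactors this

lemma infinite_used (h : Core s A) {P : Finset ℕ} (hP : ∀ p ∈ P, p.Prime) (hne : P.Nonempty)
    (hf : ∃ᶠ n in atTop, Elig A P n) :
    {m | (∃ i, s i = m) ∧ m.primeFactors = P}.Infinite := by
  refine (infinite_of_primes hP hne).mono ?_
  rintro m ⟨hm, hpos⟩
  refine ⟨used_of_freq h hpos ?_, hm⟩
  rw [hm]
  exact hf

/-- The product of the required primes divides the term. -/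
lemma prod_dvd {m : ℕ} {P : Finset ℕ} (hP : P ⊆ m.primeFactors) : ∏ p ∈ P, p ∣ m :=
  (Finset.prod_dvd_prod_of_subset _ _ _ hP).trans (Nat.prod_primeFactors_dvd m)

/-- Infinitely often there is no required prime. -/
theorem empty_freq (h : Core s A) : ∃ᶠ n in atTop, A n = ∅ := by
  by_contra hcon
  rw [Filter.not_frequently, Filter.eventually_atTop] at hcon
  obtain ⟨n0, hn0⟩ := hcon
  -- every required set is contained in a fixed finite set
  have key : ∀ n, n0 ≤ n →
      A (n + 1) ⊆ (Finset.range (n0 + 4)).biUnion (fun i => (s i).primeFactors) := by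
    intro n
    induction n using Nat.strong_induction_on with
    | _ n ih =>
      intro hn
      have hprime : ∀ p ∈ A (n + 1), p.Prime := fun p hp => prime_of_mem h hp
      have hMpos : 0 < ∏ p ∈ A (n + 1), p := Finset.prod_pos fun p hp => (hprime p hp).pos
      have hMfac : (∏ p ∈ A (n + 1), p).primeFactors = A (n + 1) := Nat.primeFactors_prod hprime
      have hex : ∃ i < n + 3, s i = ∏ p ∈ A (n + 1), p := by
        by_contra hno
        push Not at hno
        have hle : s (n + 3) ≤ ∏ p ∈ A (n + 1), p :=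
          h.greedy n _ hMpos hno (by rw [hMfac]) (by rw [hMfac]; exact (h.d1 n).symm)
        have hfac : (s (n + 3)).primeFactors = A (n + 1) ∪ A (n + 2) := h.fac (n + 1)
        have hge : ∏ p ∈ A (n + 1), p ≤ s (n + 3) :=
          Nat.le_of_dvd (h.pos _) (prod_dvd (by rw [hfac]; exact Finset.subset_union_left))
        have heq : s (n + 3) = ∏ p ∈ A (n + 1), p := le_antisymm hle hge
        rw [heq, hMfac] at hfac
        apply hn0 (n + 2) (by omega)
        rw [← Finset.disjoint_self_iff_empty]
        refine Finset.disjoint_of_subset_left ?_ (h.d1 (n + 1))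
        rw [hfac]
        exact Finset.subset_union_right
      obtain ⟨i, hi, hsi⟩ := hex
      have hAi : A (n + 1) = (s i).primeFactors := by rw [hsi, hMfac]
      by_cases hi4 : i < n0 + 4
      · rw [hAi]
        intro p hp
        rw [Finset.mem_biUnion]
        exact ⟨i, Finset.mem_range.2 hi4, hp⟩
      · obtain ⟨j, rfl⟩ : ∃ j, i = j + 3 := ⟨i - 3, by omega⟩
        have hfj : (s (j + 3)).primeFactors = A (j + 1) ∪ A (j + 2) := h.fac (j + 1)
        rw [hfj] at hAi
        by_cases hjn : j + 1 = n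
        · exfalso
          apply hn0 (j + 1) (by omega)
          rw [← Finset.disjoint_self_iff_empty]
          refine Finset.disjoint_of_subset_right ?_ (h.d1 (j + 1))
          have : A (j + 1 + 1) = A (j + 1) ∪ A (j + 2) := by rw [← hAi, hjn]
          rw [this]
          exact Finset.subset_union_left
        · rw [hAi]
          refine Finset.union_subset ?_ ?_
          · exact ih j (by omega) (by omega)
          · exact ih (j + 1) (by omega) (by omega)
  -- no finite set is required infinitely often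
  have key2 : ∀ P : Finset ℕ, ∀ᶠ n in atTop, A n ≠ P := by
    intro P
    induction P using Finset.strongInduction with
    | H P ih =>
      by_contra hP
      rw [Filter.not_eventually] at hP
      simp only [ne_eq, not_not] at hP
      have hne : P.Nonempty := by
        obtain ⟨n, hn, hnP⟩ := (Filter.frequently_atTop.1 hP) n0
        rw [Finset.nonempty_iff_ne_empty]
        rintro rfl
        exact hn0 n hn hnP
      have hprime : ∀ p ∈ P, p.Prime := by
        obtain ⟨n, -, hnP⟩ := (Filter.frequently_atTop.1 hP) 0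
        intro p hp
        rw [← hnP] at hp
        exact prime_of_mem h hp
      have hel : ∃ᶠ n in atTop, Elig A P n := by
        rw [Filter.frequently_atTop]
        intro N
        obtain ⟨n, hn, hnP⟩ := (Filter.frequently_atTop.1 hP) (N + 1)
        refine ⟨n - 1, by omega, ?_⟩
        have hn1 : n - 1 + 1 = n := by omega
        constructor
        · rw [hn1, hnP]
        · have := h.d1 (n - 1)
          rw [hn1, hnP] at this
          exact this.symm
      have hfr := freq_of_infinite (infinite_used h hprime hne hel)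
      have hev : ∀ᶠ n in atTop, ∀ P' ∈ P.ssubsets, A n ≠ P' := by
        rw [Filter.eventually_all_finset]
        intro P' hP'
        exact ih P' (Finset.mem_ssubsets.1 hP')
      obtain ⟨N, hN⟩ := Filter.eventually_atTop.1 hev
      obtain ⟨n, hn, hnP⟩ := (Filter.frequently_atTop.1 hfr) (max N n0)
      have hNn : N ≤ n := le_trans (le_max_left _ _) hn
      have hn0n : n0 ≤ n := le_trans (le_max_right _ _) hn
      have hfac : (s (n + 3)).primeFactors = A (n + 1) ∪ A (n + 2) := h.fac (n + 1)
      rw [hnP] at hfac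
      refine hN (n + 1) (by omega) (A (n + 1)) ?_ rfl
      rw [Finset.mem_ssubsets, Finset.ssubset_iff_subset_ne]
      refine ⟨by rw [hfac]; exact Finset.subset_union_left, ?_⟩
      intro heq
      apply hn0 (n + 2) (by omega)
      rw [← Finset.disjoint_self_iff_empty]
      refine Finset.disjoint_of_subset_left ?_ (h.d1 (n + 1))
      rw [heq, hfac]
      exact Finset.subset_union_right
  have hev : ∀ᶠ n in atTop, ∀ P' ∈ ((Finset.range (n0 + 4)).biUnion
      (fun i => (s i).primeFactors)).powerset, A n ≠ P' := by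
    rw [Filter.eventually_all_finset]
    intro P' _
    exact key2 P'
  obtain ⟨N, hN⟩ := Filter.eventually_atTop.1 hev
  exact hN (max N n0 + 1) (le_trans (le_max_left _ _) (Nat.le_succ _)) _
    (Finset.mem_powerset.2 (key (max N n0) (le_max_right _ _))) rfl

/-- `P` is admissible only finitely often. -/
def Bad (A : ℕ → Finset ℕ) (P : Finset ℕ) : Prop := ∀ᶠ n in atTop, ¬ Elig A P n

lemma A_sub_left (h : Core s A) (n : ℕ) : A n ⊆ (s (n + 2)).primeFactors := by
  rw [h.fac n]
  exact Finset.subset_union_left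

lemma A_sub_right (h : Core s A) (n : ℕ) : A (n + 1) ⊆ (s (n + 2)).primeFactors := by
  rw [h.fac n]
  exact Finset.subset_union_right

/-- Every prime divides some term. -/
lemma exists_dvd (h : Core s A) {l : ℕ} (hl : l.Prime) : ∃ i, l ∣ s i := by
  by_contra hno
  push Not at hno
  have hfac : l.primeFactors = {l} := hl.primeFactors
  have hnot : ∀ n, l ∉ A n := fun n hn =>
    hno (n + 2) (Nat.dvd_of_mem_primeFactors (A_sub_left h n hn))
  have hf : ∃ᶠ n in atTop, Elig A l.primeFactors n := by
    rw [Filter.frequently_atTop]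
    intro N
    obtain ⟨n, hn, hnP⟩ := (Filter.frequently_atTop.1 (empty_freq h)) (N + 1)
    refine ⟨n - 1, by omega, ?_⟩
    have hn1 : n - 1 + 1 = n := by omega
    constructor
    · rw [hn1, hnP]
      exact Finset.empty_subset _
    · rw [hfac, Finset.disjoint_singleton_left]
      exact hnot _
  obtain ⟨i, hi⟩ := used_of_freq h hl.pos hf
  exact hno i (by rw [hi])

/-- A set of primes that is admissible only finitely often does not contain `2`. -/
theorem two_not_mem (h : Core s A) {P : Finset ℕ} (hb : Bad A P) : 2 ∉ P := by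
  intro h2P
  obtain ⟨N, hN⟩ := Filter.eventually_atTop.1 hb
  obtain ⟨l, hlB, hl⟩ := Nat.exists_infinite_primes
    ((∑ i ∈ Finset.range (N + 4), s i) + (∑ p ∈ P, p) + 3)
  have hl2 : 2 < l := by omega
  have hlP : l ∉ P := by
    intro hmem
    have : l ≤ ∑ p ∈ P, p := Finset.single_le_sum (f := fun p => p) (fun _ _ => Nat.zero_le _) hmem
    omega
  have hls : ∀ i < N + 4, ¬ l ∣ s i := by
    intro i hi hdvd
    have h1 : l ≤ s i := Nat.le_of_dvd (h.pos i) hdvd
    have h2 : s i ≤ ∑ i ∈ Finset.range (N + 4), s i :=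
      Finset.single_le_sum (f := s) (fun _ _ => Nat.zero_le _) (Finset.mem_range.2 hi)
    omega
  have hex := exists_dvd h hl
  classical
  obtain ⟨i0, hi0, hmin⟩ : ∃ i0, l ∣ s i0 ∧ ∀ j < i0, ¬ l ∣ s j :=
    ⟨Nat.find hex, Nat.find_spec hex, fun j hj => Nat.find_min hex hj⟩
  have hi4 : N + 4 ≤ i0 := by
    by_contra hlt
    exact hls i0 (by omega) hi0
  obtain ⟨n, rfl⟩ : ∃ n, i0 = n + 3 := ⟨i0 - 3, by omega⟩
  have hlA0 : l ∉ A n := fun hm =>
    hmin (n + 2) (by omega) (Nat.dvd_of_mem_primeFactors (A_sub_left h n hm))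
  have hlA1 : l ∉ A (n + 1) := fun hm =>
    hmin (n + 2) (by omega) (Nat.dvd_of_mem_primeFactors (A_sub_right h n hm))
  have hfac : (s (n + 3)).primeFactors = A (n + 1) ∪ A (n + 2) := h.fac (n + 1)
  have hlfac : l ∈ (s (n + 3)).primeFactors :=
    Nat.mem_primeFactors.2 ⟨hl, hi0, (h.pos _).ne'⟩
  have hprime : ∀ p ∈ insert l (A (n + 1)), p.Prime := by
    intro p hp
    rcases Finset.mem_insert.1 hp with rfl | hp
    · exact hl
    · exact prime_of_mem h hp
  have hMfac : (∏ p ∈ insert l (A (n + 1)), p).primeFactors = insert l (A (n + 1)) :=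
    Nat.primeFactors_prod hprime
  have hMpos : 0 < ∏ p ∈ insert l (A (n + 1)), p :=
    Finset.prod_pos fun p hp => (hprime p hp).pos
  have hlM : l ∣ ∏ p ∈ insert l (A (n + 1)), p :=
    Finset.dvd_prod_of_mem _ (Finset.mem_insert_self _ _)
  have hsM : s (n + 3) = ∏ p ∈ insert l (A (n + 1)), p := by
    apply le_antisymm
    · refine h.greedy n _ hMpos ?_ ?_ ?_
      · intro i hi hEq
        exact hmin i hi (by rw [hEq]; exact hlM)
      · rw [hMfac]
        exact Finset.subset_insert _ _
      · rw [hMfac, Finset.disjoint_insert_left]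
        exact ⟨hlA0, (h.d1 n).symm⟩
    · refine Nat.le_of_dvd (h.pos _) (prod_dvd ?_)
      rw [Finset.insert_subset_iff]
      refine ⟨hlfac, ?_⟩
      rw [hfac]
      exact Finset.subset_union_left
  have hun : insert l (A (n + 1)) = A (n + 1) ∪ A (n + 2) := by
    rw [← hfac, hsM, hMfac]
  have hA2 : A (n + 2) = {l} := by
    ext x
    rw [Finset.mem_singleton]
    constructor
    · intro hx
      have h1 : x ∈ insert l (A (n + 1)) := by
        rw [hun]
        exact Finset.mem_union_right _ hx
      rcases Finset.mem_insert.1 h1 with h1 | h1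
      · exact h1
      · exact absurd hx (Finset.disjoint_left.1 (h.d1 (n + 1)) h1)
    · rintro rfl
      have h1 : x ∈ A (n + 1) ∪ A (n + 2) := by
        rw [← hun]
        exact Finset.mem_insert_self _ _
      rcases Finset.mem_union.1 h1 with h1 | h1
      · exact absurd h1 hlA1
      · exact h1
  have hfac4 : (s (n + 4)).primeFactors = A (n + 2) ∪ A (n + 3) := h.fac (n + 2)
  have hl4 : l ∣ s (n + 4) := by
    apply Nat.dvd_of_mem_primeFactors
    rw [hfac4, hA2]
    exact Finset.mem_union_left _ (Finset.mem_singleton_self _)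
  have hdisjPl : Disjoint P (A (n + 2)) := by
    rw [hA2, Finset.disjoint_singleton_right]
    exact hlP
  have hd23 : Disjoint (A (n + 2)) (A (n + 3)) := h.d1 (n + 2)
  by_cases hA1 : A (n + 1) = ∅
  · -- the first multiple of `l` is `l` itself, and the next term is `2 * l`
    have hsl : s (n + 3) = l := by
      rw [hsM, hA1]
      simp
    have h2l : (2 * l).primeFactors = {2, l} := by
      rw [Nat.primeFactors_mul (by norm_num) hl.ne_zero, Nat.prime_two.primeFactors,
        hl.primeFactors]
      rfl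
    have hle : s (n + 4) ≤ 2 * l := by
      refine h.greedy (n + 1) _ (by omega) ?_ ?_ ?_
      · intro i hi hEq
        by_cases hi3 : i < n + 3
        · exact hmin i hi3 (by rw [hEq]; exact dvd_mul_left _ _)
        · have : i = n + 3 := by omega
          subst this
          omega
      · show A (n + 2) ⊆ (2 * l).primeFactors
        rw [hA2, h2l]
        simp
      · rw [hA1]
        exact Finset.disjoint_empty_right _
    have hs4 : s (n + 4) = 2 * l := by
      obtain ⟨c, hc⟩ := hl4
      have hc0 : 0 < c := by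
        rcases Nat.eq_zero_or_pos c with h0 | h0
        · have := h.pos (n + 4)
          rw [hc, h0] at this
          omega
        · exact h0
      have hc2 : c ≤ 2 := by
        rw [hc] at hle
        nlinarith [hl.pos]
      have hc1 : c ≠ 1 := by
        rintro rfl
        have : s (n + 4) = s (n + 3) := by rw [hc, hsl, mul_one]
        have := h.inj this
        omega
      have : c = 2 := by omega
      rw [hc, this, mul_comm]
    have hA3 : A (n + 3) ⊆ {2} := by
      intro x hx
      have h1 : x ∈ (s (n + 4)).primeFactors := by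
        rw [hfac4]
        exact Finset.mem_union_right _ hx
      rw [hs4, h2l] at h1
      have h2 : x ∉ A (n + 2) := Finset.disjoint_right.1 hd23 hx
      rw [hA2] at h2
      simp only [Finset.mem_insert, Finset.mem_singleton] at h1 h2 ⊢
      tauto
    refine hN (n + 2) (by omega) ⟨?_, hdisjPl⟩
    show A (n + 3) ⊆ P
    exact hA3.trans (Finset.singleton_subset_iff.2 h2P)
  · -- otherwise the next term is `l`, and then nothing is required
    have hle : s (n + 4) ≤ l := by
      refine h.greedy (n + 1) _ hl.pos ?_ ?_ ?_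
      · intro i hi hEq
        by_cases hi3 : i < n + 3
        · exact hmin i hi3 (by rw [hEq])
        · have : i = n + 3 := by omega
          subst this
          obtain ⟨x, hx⟩ := Finset.nonempty_iff_ne_empty.2 hA1
          have h1 : x ∈ (s (n + 3)).primeFactors := by
            rw [hfac]
            exact Finset.mem_union_left _ hx
          rw [hEq, hl.primeFactors, Finset.mem_singleton] at h1
          exact hlA1 (h1 ▸ hx)
      · show A (n + 2) ⊆ l.primeFactors
        rw [hA2, hl.primeFactors]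
      · rw [hl.primeFactors, Finset.disjoint_singleton_left]
        exact hlA1
    have hs4 : s (n + 4) = l := le_antisymm hle (Nat.le_of_dvd (h.pos _) hl4)
    have hA3 : A (n + 3) ⊆ P := by
      intro x hx
      exfalso
      have h1 : x ∈ (s (n + 4)).primeFactors := by
        rw [hfac4]
        exact Finset.mem_union_right _ hx
      rw [hs4, hl.primeFactors] at h1
      have h2 : x ∉ A (n + 2) := Finset.disjoint_right.1 hd23 hx
      rw [hA2] at h2
      exact h2 h1
    exact hN (n + 2) (by omega) ⟨hA3, hdisjPl⟩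

lemma bad_of_missing (h : Core s A) {m : ℕ} (hm : 0 < m) (hmiss : ∀ i, s i ≠ m) :
    Bad A m.primeFactors := by
  unfold Bad
  rw [← Filter.not_frequently]
  intro hf
  obtain ⟨i, hi⟩ := used_of_freq h hm hf
  exact hmiss i hi

theorem even_used (h : Core s A) {m : ℕ} (hm : 0 < m) (he : 2 ∣ m) : ∃ i, s i = m := by
  by_contra hno
  push Not at hno
  exact two_not_mem h (bad_of_missing h hm hno)
    (Nat.mem_primeFactors.2 ⟨Nat.prime_two, he, hm.ne'⟩)

lemma shift {Q : ℕ → Prop} (h : ∀ᶠ n in atTop, Q n) : ∀ᶠ n in atTop, Q (n + 1) :=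
  (tendsto_add_atTop_nat 1).eventually h

/-- If `P` is bad and the prime `q` is not in `P`, then `{q}` is not bad. -/
theorem good_of_not_mem (h : Core s A) {P : Finset ℕ} (hP : Bad A P) {q : ℕ} (hq : q.Prime)
    (hqP : q ∉ P) : ¬ Bad A {q} := by
  intro hbq
  have h2P := two_not_mem h hP
  have h2q : (2 : ℕ) ≠ q := by
    have := two_not_mem h hbq
    rwa [Finset.mem_singleton] at this
  have hprime : ∀ p ∈ ({2, q} : Finset ℕ), p.Prime := by
    intro p hp
    simp only [Finset.mem_insert, Finset.mem_singleton] at hp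
    rcases hp with rfl | rfl
    · exact Nat.prime_two
    · exact hq
  have hinf : {m | (∃ i, s i = m) ∧ m.primeFactors = {2, q}}.Infinite := by
    refine (infinite_of_primes hprime (by simp)).mono ?_
    rintro m ⟨hm, hpos⟩
    refine ⟨even_used h hpos (Nat.dvd_of_mem_primeFactors ?_), hm⟩
    rw [hm]
    simp
  have hf := freq_of_infinite hinf
  obtain ⟨n, hn, hnP, hnq, hnq'⟩ := (hf.and_eventually ((shift hP).and (hbq.and (shift hbq)))).exists
  have hfac : (s (n + 3)).primeFactors = A (n + 1) ∪ A (n + 2) := h.fac (n + 1)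
  rw [hn] at hfac
  have hdis : Disjoint ({2, q} : Finset ℕ) (A n) := (elig_of_eq h hn).2
  have hd : Disjoint (A (n + 1)) (A (n + 2)) := h.d1 (n + 1)
  have hsub1 : A (n + 1) ⊆ {2, q} := by
    rw [hfac]
    exact Finset.subset_union_left
  have hsub2 : A (n + 2) ⊆ {2, q} := by
    rw [hfac]
    exact Finset.subset_union_right
  by_cases h2 : 2 ∈ A (n + 1)
  · by_cases hq1 : q ∈ A (n + 1)
    · apply hnP
      constructor
      · show A (n + 2) ⊆ P
        intro x hx
        exfalso
        have h1 := hsub2 hx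
        simp only [Finset.mem_insert, Finset.mem_singleton] at h1
        rcases h1 with rfl | rfl
        · exact Finset.disjoint_left.1 hd h2 hx
        · exact Finset.disjoint_left.1 hd hq1 hx
      · rw [Finset.disjoint_right]
        intro x hx
        have h1 := hsub1 hx
        simp only [Finset.mem_insert, Finset.mem_singleton] at h1
        rcases h1 with rfl | rfl
        · exact h2P
        · exact hqP
    · apply hnq'
      constructor
      · show A (n + 2) ⊆ {q}
        intro x hx
        have h1 := hsub2 hx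
        simp only [Finset.mem_insert, Finset.mem_singleton] at h1
        rcases h1 with rfl | rfl
        · exact absurd hx (Finset.disjoint_left.1 hd h2)
        · exact Finset.mem_singleton_self _
      · rw [Finset.disjoint_singleton_left]
        exact hq1
  · apply hnq
    constructor
    · intro x hx
      have h1 := hsub1 hx
      simp only [Finset.mem_insert, Finset.mem_singleton] at h1
      rcases h1 with rfl | rfl
      · exact absurd hx h2
      · exact Finset.mem_singleton_self _
    · exact Finset.disjoint_of_subset_left (by simp) hdis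

/-- If `P` is bad, then all multiples of all primes outside `P` occur. -/
theorem multiples_used (h : Core s A) {P : Finset ℕ} (hP : Bad A P) {q : ℕ} (hq : q.Prime)
    (hqP : q ∉ P) {m : ℕ} (hm : 0 < m) (hqm : q ∣ m) : ∃ i, s i = m := by
  have hg := good_of_not_mem h hP hq hqP
  unfold Bad at hg
  rw [Filter.not_eventually] at hg
  simp only [not_not] at hg
  have hf := freq_of_infinite (infinite_used h (P := {q})
    (by intro p hp; rw [Finset.mem_singleton] at hp; rw [hp]; exact hq) (by simp) hg)
  have hfr : ∃ᶠ n in atTop, Elig A m.primeFactors n := by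
    rw [Filter.frequently_atTop]
    intro N
    obtain ⟨N', hN'⟩ := Filter.eventually_atTop.1 (shift hP)
    obtain ⟨n, hn, hnq⟩ := (Filter.frequently_atTop.1 hf) (max N N')
    have hnP := hN' n (le_trans (le_max_right _ _) hn)
    have hfac : (s (n + 3)).primeFactors = A (n + 1) ∪ A (n + 2) := h.fac (n + 1)
    rw [hnq] at hfac
    have hd : Disjoint (A (n + 1)) (A (n + 2)) := h.d1 (n + 1)
    have hsub1 : A (n + 1) ⊆ {q} := by
      rw [hfac]
      exact Finset.subset_union_left
    have hsub2 : A (n + 2) ⊆ {q} := by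
      rw [hfac]
      exact Finset.subset_union_right
    refine ⟨n + 1, le_trans (le_max_left _ _) (le_trans hn (Nat.le_succ _)), ?_, ?_⟩
    · show A (n + 2) ⊆ m.primeFactors
      intro x hx
      have h1 := hsub2 hx
      rw [Finset.mem_singleton] at h1
      rw [h1]
      exact Nat.mem_primeFactors.2 ⟨hq, hqm, hm.ne'⟩
    · rw [Finset.disjoint_right]
      intro x hx
      exfalso
      have h1 := hsub1 hx
      rw [Finset.mem_singleton] at h1
      subst h1
      apply hnP
      constructor
      · show A (n + 2) ⊆ P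
        intro y hy
        exfalso
        have h2 := hsub2 hy
        rw [Finset.mem_singleton] at h2
        subst h2
        exact Finset.disjoint_left.1 hd hx hy
      · rw [Finset.disjoint_right]
        intro y hy
        have h2 := hsub1 hy
        rw [Finset.mem_singleton] at h2
        rw [h2]
        exact hqP
  exact used_of_freq h hm hfr

/-- Two missing numbers have the same prime factors. -/
theorem unique_radical (h : Core s A) {m m' : ℕ} (hm : 0 < m) (hm' : 0 < m')
    (hmiss : ∀ i, s i ≠ m) (hmiss' : ∀ i, s i ≠ m') : m.primeFactors = m'.primeFactors := by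
  have key : ∀ {x y : ℕ}, 0 < x → 0 < y → (∀ i, s i ≠ x) → (∀ i, s i ≠ y) →
      x.primeFactors ⊆ y.primeFactors := by
    intro x y hx hy hxm hym q hqx
    by_contra hqy
    obtain ⟨i, hi⟩ := multiples_used h (bad_of_missing h hy hym)
      (Nat.prime_of_mem_primeFactors hqx) hqy hx (Nat.dvd_of_mem_primeFactors hqx)
    exact hxm i hi
  exact Finset.Subset.antisymm (key hm hm' hmiss hmiss') (key hm' hm hmiss' hmiss)

/-- If `m` is missing, only finitely many numbers with the prime factors of `m` occur. -/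
theorem finite_of_missing (h : Core s A) {m : ℕ} (hm : 0 < m) (hmiss : ∀ i, s i ≠ m) :
    {x | (∃ i, s i = x) ∧ x.primeFactors = m.primeFactors}.Finite := by
  by_contra hinf
  have hf := freq_of_infinite (s := s) hinf
  have hb := bad_of_missing h hm hmiss
  obtain ⟨n, hn, hnb⟩ := (hf.and_eventually hb).exists
  exact hnb (elig_of_eq h hn)

/-! ### The sequence satisfies the hypotheses of the core argument -/

/-- If a prime `q` divides a term chosen greedily but no earlier term, then `q` is itself a term. -/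
theorem prime_used (h : Core s A) {q : ℕ} (hq : q.Prime) {n : ℕ} (hn : q ∣ s (n + 3))
    (hfirst : ∀ i < n + 3, ¬ q ∣ s i) : ∃ i, s i = q := by
  by_contra hno
  push Not at hno
  have hfac : (s (n + 3)).primeFactors = A (n + 1) ∪ A (n + 2) := h.fac (n + 1)
  have hq1 : q ∉ A (n + 1) := fun hmem =>
    hfirst (n + 2) (by omega) (Nat.dvd_of_mem_primeFactors (A_sub_right h n hmem))
  have hq0 : q ∉ A n := fun hmem =>
    hfirst (n + 2) (by omega) (Nat.dvd_of_mem_primeFactors (A_sub_left h n hmem))
  have hq2 : q ∈ A (n + 2) := by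
    have : q ∈ (s (n + 3)).primeFactors :=
      Nat.mem_primeFactors.2 ⟨hq, hn, (h.pos (n + 3)).ne'⟩
    rw [hfac, Finset.mem_union] at this
    exact this.resolve_left hq1
  have hpr : ∀ p ∈ insert q (A (n + 1)), p.Prime := by
    intro p hp
    rcases Finset.mem_insert.1 hp with rfl | hp
    · exact hq
    · exact prime_of_mem h hp
  have hpf : (∏ p ∈ insert q (A (n + 1)), p).primeFactors = insert q (A (n + 1)) :=
    Nat.primeFactors_prod hpr
  have hle : s (n + 3) ≤ ∏ p ∈ insert q (A (n + 1)), p := by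
    refine h.greedy n _ (Finset.prod_pos fun p hp => (hpr p hp).pos) ?_ ?_ ?_
    · intro i hi heq
      apply hfirst i hi
      rw [heq]
      exact Finset.dvd_prod_of_mem _ (Finset.mem_insert_self _ _)
    · rw [hpf]
      exact Finset.subset_insert _ _
    · rw [hpf, Finset.disjoint_insert_left]
      exact ⟨hq0, (h.d1 n).symm⟩
  have hsub : insert q (A (n + 1)) ⊆ (s (n + 3)).primeFactors := by
    rw [hfac]
    intro p hp
    rcases Finset.mem_insert.1 hp with rfl | hp
    · exact Finset.mem_union_right _ hq2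
    · exact Finset.mem_union_left _ hp
  have heq : s (n + 3) = ∏ p ∈ insert q (A (n + 1)), p :=
    le_antisymm hle (Nat.le_of_dvd (h.pos _) (prod_dvd hsub))
  have hA2 : A (n + 2) = {q} := by
    ext p
    rw [Finset.mem_singleton]
    constructor
    · intro hp
      have h1 : p ∈ (s (n + 3)).primeFactors := by
        rw [hfac]
        exact Finset.mem_union_right _ hp
      rw [heq, hpf, Finset.mem_insert] at h1
      exact h1.resolve_right fun h2 => Finset.disjoint_left.1 (h.d1 (n + 1)) h2 hp
    · rintro rfl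
      exact hq2
  have hle2 : s (n + 4) ≤ q := by
    refine h.greedy (n + 1) q hq.pos (fun i _ => hno i) ?_ ?_
    · show A (n + 2) ⊆ q.primeFactors
      rw [hA2, hq.primeFactors]
    · rw [hq.primeFactors, Finset.disjoint_singleton_left]
      exact hq1
  have hdvd : q ∣ s (n + 4) := by
    apply Nat.dvd_of_mem_primeFactors
    exact A_sub_left h (n + 2) (hA2 ▸ Finset.mem_singleton_self q)
  exact hno (n + 4) (le_antisymm hle2 (Nat.le_of_dvd (h.pos _) hdvd))

lemma coffee_spec {a : ℕ → ℕ} (ha : IsCoffee a) (n : ℕ) :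
    IsLeast {m | Admissible {x | ∃ i, 1 ≤ i ∧ i < n + 3 ∧ a i = x} (a (n + 1)) (a (n + 2)) m}
      (a (n + 3)) := by
  have := ha.step (n + 3) (by omega)
  simpa using this

lemma coffee_pos {a : ℕ → ℕ} (ha : IsCoffee a) (n : ℕ) : 0 < a (n + 1) := by
  match n with
  | 0 => rw [ha.one]; norm_num
  | 1 => rw [ha.two]; norm_num
  | n + 2 => exact (coffee_spec ha n).1.1

lemma coffee_core {a : ℕ → ℕ} (ha : IsCoffee a) :
    Core (fun n => a (n + 1)) (fun n => (a (n + 2)).primeFactors \ (a (n + 1)).primeFactors) := by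
  have mem : ∀ n p, p ∈ (a (n + 1)).primeFactors ↔ p.Prime ∧ p ∣ a (n + 1) := by
    intro n p
    rw [Nat.mem_primeFactors]
    exact ⟨fun h => ⟨h.1, h.2.1⟩, fun h => ⟨h.1, h.2, (coffee_pos ha n).ne'⟩⟩
  have req : ∀ n p, p.Prime → p ∣ a (n + 2) → ¬ p ∣ a (n + 1) → p ∣ a (n + 3) :=
    fun n => (coffee_spec ha n).1.2.2.1
  have forb : ∀ n p, p.Prime → p ∣ a (n + 2) → p ∣ a (n + 1) → ¬ p ∣ a (n + 3) :=
    fun n => (coffee_spec ha n).1.2.2.2
  have mem1 : ∀ n p, p ∈ (a (n + 2)).primeFactors ↔ p.Prime ∧ p ∣ a (n + 2) :=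
    fun n => mem (n + 1)
  have mem2 : ∀ n p, p ∈ (a (n + 3)).primeFactors ↔ p.Prime ∧ p ∣ a (n + 3) :=
    fun n => mem (n + 2)
  have mem3 : ∀ n p, p ∈ (a (n + 4)).primeFactors ↔ p.Prime ∧ p ∣ a (n + 4) :=
    fun n => mem (n + 3)
  refine ⟨fun n => coffee_pos ha n, ?_, ?_, ?_, ?_, ?_⟩
  · have key : ∀ i j, i < j → a (i + 1) ≠ a (j + 1) := by
      intro i j hij
      match j with
      | 0 => omega
      | 1 =>
        have : i = 0 := by omega
        subst this
        rw [ha.one, ha.two]
        norm_num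
      | k + 2 =>
        intro h
        exact (coffee_spec ha k).1.2.1 ⟨i + 1, by omega, by omega, h⟩
    intro i j hij
    by_contra hne
    rcases Nat.lt_or_gt_of_ne hne with h | h
    · exact key i j h hij
    · exact key j i h hij.symm
  · intro n
    ext p
    simp only [Finset.mem_union, Finset.mem_sdiff, mem]
    constructor
    · rintro ⟨hp, h3⟩
      by_cases h2 : p ∣ a (n + 2)
      · left
        exact ⟨⟨hp, h2⟩, fun h1 => forb n p hp h2 h1.2 h3⟩
      · right
        exact ⟨⟨hp, h3⟩, fun h => h2 h.2⟩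
    · rintro (⟨⟨hp, h2⟩, h1⟩ | ⟨h, -⟩)
      · exact ⟨hp, req n p hp h2 fun h => h1 ⟨hp, h⟩⟩
      · exact h
  · intro n
    rw [Finset.disjoint_left]
    intro p hp hp'
    rw [Finset.mem_sdiff] at hp hp'
    exact hp'.2 hp.1
  · intro n
    rw [Finset.disjoint_left]
    intro p hp hp'
    rw [Finset.mem_sdiff] at hp hp'
    have hp2 : p.Prime ∧ p ∣ a (n + 2) := (mem1 n p).1 hp.1
    have hp1 : ¬ p ∣ a (n + 1) := fun h => hp.2 ((mem n p).2 ⟨hp2.1, h⟩)
    have hp4 : p.Prime ∧ p ∣ a (n + 4) := (mem3 n p).1 hp'.1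
    have h3 : p ∣ a (n + 3) := req n p hp2.1 hp2.2 hp1
    exact forb (n + 1) p hp2.1 h3 hp2.2 hp4.2
  · intro n m hm hun hreq hforb
    refine (coffee_spec ha (n + 1)).2 ⟨hm, ?_, ?_, ?_⟩
    · rintro ⟨i, hi1, hi2, hi3⟩
      have hi : i - 1 + 1 = i := by omega
      apply hun (i - 1) (by omega)
      simp only [hi]
      exact hi3
    · intro p hp h3 h2
      apply Nat.dvd_of_mem_primeFactors
      apply hreq
      rw [Finset.mem_sdiff]
      exact ⟨(mem2 n p).2 ⟨hp, h3⟩, fun h => h2 ((mem1 n p).1 h).2⟩
    · intro p hp h3 h2 hpm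
      have h1 : ¬ p ∣ a (n + 1) := fun h1 => forb n p hp h2 h1 h3
      refine Finset.disjoint_left.1 hforb (Nat.mem_primeFactors.2 ⟨hp, hpm, hm.ne'⟩) ?_
      rw [Finset.mem_sdiff]
      exact ⟨(mem1 n p).2 ⟨hp, h2⟩, fun h => h1 ((mem n p).1 h).2⟩

/-- Every prime is a term of the cup-of-coffee sequence. -/
theorem coffee_prime {a : ℕ → ℕ} (ha : IsCoffee a) {q : ℕ} (hq : q.Prime) :
    ∃ n, 1 ≤ n ∧ a n = q := by
  have hc := coffee_core ha
  by_cases hq2 : q = 2
  · exact ⟨2, by omega, by rw [ha.two, hq2]⟩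
  have h3 : a 3 = 4 := by
    have hs := coffee_spec ha 0
    have h12 : a (0 + 1) = 1 := ha.one
    have h22 : a (0 + 2) = 2 := ha.two
    have hle : a 3 ≤ 4 := by
      apply hs.2
      refine ⟨by norm_num, ?_, ?_, ?_⟩
      · rintro ⟨i, hi1, hi2, hi3⟩
        have : i = 1 ∨ i = 2 := by omega
        rcases this with rfl | rfl
        · rw [ha.one] at hi3; omega
        · rw [ha.two] at hi3; omega
      · intro p hp hp2 _
        rw [h22] at hp2
        have : p = 2 := (Nat.prime_dvd_prime_iff_eq hp Nat.prime_two).1 hp2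
        rw [this]
        norm_num
      · intro p hp _ hp1
        rw [h12] at hp1
        exact absurd (Nat.dvd_one.1 hp1) hp.one_lt.ne'
    have hmem : Admissible {x | ∃ i, 1 ≤ i ∧ i < 0 + 3 ∧ a i = x} (a (0 + 1)) (a (0 + 2)) (a 3) :=
      hs.1
    have hev : 2 ∣ a 3 := by
      apply hmem.2.2.1 2 Nat.prime_two
      · rw [h22]
      · rw [h12]; norm_num
    have hne : a 3 ≠ 2 := by
      intro h
      exact hmem.2.1 ⟨2, by omega, by omega, by rw [ha.two, h]⟩
    have hpos : 0 < a 3 := hmem.1
    omega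
  have hodd : ¬ q ∣ 2 := fun h => hq2 ((Nat.prime_dvd_prime_iff_eq hq Nat.prime_two).1 h)
  obtain ⟨i, hi⟩ : ∃ i, (fun n => a (n + 1)) i = 2 * q :=
    even_used hc (Nat.mul_pos Nat.two_pos hq.pos) (Dvd.intro q rfl)
  have hex : ∃ i, q ∣ a (i + 1) := ⟨i, by
    have : a (i + 1) = 2 * q := hi
    rw [this]
    exact Dvd.intro_left 2 rfl⟩
  classical
  have hf := Nat.find_spec hex
  have hmin : ∀ j < Nat.find hex, ¬ q ∣ a (j + 1) := fun j hj => Nat.find_min hex hj
  have hge : 3 ≤ Nat.find hex := by
    by_contra hlt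
    have : Nat.find hex = 0 ∨ Nat.find hex = 1 ∨ Nat.find hex = 2 := by omega
    rcases this with h | h | h
    · rw [h] at hf
      have h1 : a (0 + 1) = 1 := ha.one
      rw [h1] at hf
      exact hq.one_lt.ne' (Nat.dvd_one.1 hf)
    · rw [h] at hf
      have h1 : a (1 + 1) = 2 := ha.two
      rw [h1] at hf
      exact hodd hf
    · rw [h] at hf
      have h1 : a (2 + 1) = 2 * 2 := h3
      rw [h1] at hf
      rcases (Nat.Prime.dvd_mul hq).1 hf with h4 | h4
      · exact hodd h4
      · exact hodd h4
  obtain ⟨n, hn⟩ : ∃ n, Nat.find hex = n + 3 := ⟨Nat.find hex - 3, by omega⟩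
  rw [hn] at hf hmin
  obtain ⟨j, hj⟩ := prime_used hc hq hf hmin
  exact ⟨j + 1, by omega, hj⟩

/-! ### Existence of the sequence -/

lemma exists_admissible (L : List ℕ) {x y : ℕ} (hx : 0 < x) (hy : 0 < y) :
    ∃ m, Admissible {z | z ∈ L} x y m := by
  obtain ⟨q, hqB, hq⟩ := Nat.exists_infinite_primes (L.sum + y + 1)
  have hprime : ∀ p ∈ y.primeFactors \ x.primeFactors, p.Prime := fun p hp =>
    Nat.prime_of_mem_primeFactors (Finset.mem_sdiff.1 hp).1
  have hpos : 0 < ∏ p ∈ y.primeFactors \ x.primeFactors, p :=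
    Finset.prod_pos fun p hp => (hprime p hp).pos
  refine ⟨q * ∏ p ∈ y.primeFactors \ x.primeFactors, p, Nat.mul_pos hq.pos hpos, ?_, ?_, ?_⟩
  · intro hmem
    have h1 : q * ∏ p ∈ y.primeFactors \ x.primeFactors, p ≤ L.sum :=
      List.le_sum_of_mem (by simpa using hmem)
    have h2 : q ≤ q * ∏ p ∈ y.primeFactors \ x.primeFactors, p := Nat.le_mul_of_pos_right _ hpos
    omega
  · intro p hp hpy hpx
    refine Dvd.dvd.mul_left (Finset.dvd_prod_of_mem _ ?_) _
    rw [Finset.mem_sdiff]
    exact ⟨Nat.mem_primeFactors.2 ⟨hp, hpy, hy.ne'⟩,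
      fun h => hpx (Nat.dvd_of_mem_primeFactors h)⟩
  · intro p hp hpy hpx hdvd
    rcases (Nat.Prime.dvd_mul hp).1 hdvd with h | h
    · have h1 : p = q := (Nat.prime_dvd_prime_iff_eq hp hq).1 h
      have h2 : p ≤ y := Nat.le_of_dvd hy hpy
      omega
    · obtain ⟨r, hr, hpr⟩ := (Prime.dvd_finsetProd_iff hp.prime _).1 h
      have h1 : p = r := (Nat.prime_dvd_prime_iff_eq hp (hprime r hr)).1 hpr
      subst h1
      exact (Finset.mem_sdiff.1 hr).2 (Nat.mem_primeFactors.2 ⟨hp, hpx, hx.ne'⟩)

/-- The next term after the history `L` (most recent term first). -/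
noncomputable def next (L : List ℕ) : ℕ :=
  sInf {m | Admissible {z | z ∈ L} (L.getD 1 0) (L.getD 0 0) m}

/-- The list of the first `n + 2` terms, most recent first. -/
noncomputable def hist : ℕ → List ℕ
  | 0 => [2, 1]
  | n + 1 => next (hist n) :: hist n

/-- The cup-of-coffee sequence. -/
noncomputable def coffee : ℕ → ℕ
  | 0 => 0
  | 1 => 1
  | n + 2 => (hist n).getD 0 0

lemma hist_zero (n : ℕ) : (hist n).getD 0 0 = coffee (n + 2) := rfl

lemma hist_one (n : ℕ) : (hist n).getD 1 0 = coffee (n + 1) := by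
  match n with
  | 0 => rfl
  | n + 1 => rfl

lemma coffee_three (n : ℕ) : coffee (n + 3) = next (hist n) := rfl

lemma mem_hist (n x : ℕ) : x ∈ hist n ↔ ∃ i, 1 ≤ i ∧ i < n + 3 ∧ coffee i = x := by
  induction n with
  | zero =>
    have h1 : coffee 1 = 1 := rfl
    have h2 : coffee 2 = 2 := rfl
    constructor
    · intro h
      have : x = 2 ∨ x = 1 := by simpa [hist] using h
      rcases this with rfl | rfl
      · exact ⟨2, by omega, by omega, h2⟩
      · exact ⟨1, by omega, by omega, h1⟩
    · rintro ⟨i, hi1, hi2, rfl⟩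
      have : i = 1 ∨ i = 2 := by omega
      rcases this with rfl | rfl
      · rw [h1]; simp [hist]
      · rw [h2]; simp [hist]
  | succ n ih =>
    have h1 : hist (n + 1) = next (hist n) :: hist n := rfl
    rw [h1, List.mem_cons, ih, ← coffee_three]
    constructor
    · rintro (rfl | ⟨i, hi1, hi2, hi3⟩)
      · exact ⟨n + 3, by omega, by omega, rfl⟩
      · exact ⟨i, hi1, by omega, hi3⟩
    · rintro ⟨i, hi1, hi2, hi3⟩
      by_cases hi : i = n + 3
      · left
        rw [← hi3, hi]
      · right
        exact ⟨i, hi1, by omega, hi3⟩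

lemma coffee_isLeast (n : ℕ) (h1 : 0 < coffee (n + 1)) (h2 : 0 < coffee (n + 2)) :
    IsLeast {m | Admissible {x | ∃ i, 1 ≤ i ∧ i < n + 3 ∧ coffee i = x}
      (coffee (n + 1)) (coffee (n + 2)) m} (coffee (n + 3)) := by
  have hset : {x | ∃ i, 1 ≤ i ∧ i < n + 3 ∧ coffee i = x} = {z | z ∈ hist n} := by
    ext x
    exact (mem_hist n x).symm
  rw [hset, coffee_three, next, hist_zero, hist_one]
  have hne : {m | Admissible {z | z ∈ hist n} (coffee (n + 1)) (coffee (n + 2)) m}.Nonempty :=
    exists_admissible (hist n) h1 h2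
  exact ⟨Nat.sInf_mem hne, fun m hm => Nat.sInf_le hm⟩

lemma coffee_all_pos (n : ℕ) : 0 < coffee (n + 1) ∧ 0 < coffee (n + 2) := by
  induction n with
  | zero => exact ⟨Nat.one_pos, Nat.two_pos⟩
  | succ n ih => exact ⟨ih.2, (coffee_isLeast n ih.1 ih.2).1.1⟩

theorem isCoffee_coffee : IsCoffee coffee := by
  refine ⟨rfl, rfl, ?_⟩
  intro n hn
  obtain ⟨k, rfl⟩ : ∃ k, n = k + 3 := ⟨n - 3, by omega⟩
  have := coffee_isLeast k (coffee_all_pos k).1 (coffee_all_pos k).2
  simpa using this

/-- **Main result.**  The cup-of-coffee sequence exists (and is unique as a sequence indexed by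
`n ≥ 1`).  Either every positive integer occurs in it, or there is a nonempty finite set `P` of odd
primes such that every prime and every positive integer whose set of prime factors is not `P`
occurs, while only finitely many integers whose set of prime factors is `P` occur. -/
theorem result :
    (∃ a, IsCoffee a) ∧
    (∀ a b, IsCoffee a → IsCoffee b → ∀ n, 1 ≤ n → a n = b n) ∧
    ∀ a, IsCoffee a →
      (∀ m, 0 < m → ∃ n, 1 ≤ n ∧ a n = m) ∨
      ∃ P : Finset ℕ, P.Nonempty ∧ (∀ p ∈ P, p.Prime ∧ p ≠ 2) ∧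
        (∀ m, 0 < m → (m.Prime ∨ m.primeFactors ≠ P) → ∃ n, 1 ≤ n ∧ a n = m) ∧
        {m | (∃ n, 1 ≤ n ∧ a n = m) ∧ m.primeFactors = P}.Finite := by
  refine ⟨⟨coffee, isCoffee_coffee⟩, ?_, ?_⟩
  · intro a b ha hb n
    induction n using Nat.strong_induction_on with
    | _ n ih =>
      intro hn
      by_cases h1 : n = 1
      · rw [h1, ha.one, hb.one]
      by_cases h2 : n = 2
      · rw [h2, ha.two, hb.two]
      obtain ⟨k, rfl⟩ : ∃ k, n = k + 3 := ⟨n - 3, by omega⟩
      have hset : {x | ∃ i, 1 ≤ i ∧ i < k + 3 ∧ a i = x} =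
          {x | ∃ i, 1 ≤ i ∧ i < k + 3 ∧ b i = x} := by
        ext x
        constructor
        · rintro ⟨i, hi1, hi2, hi3⟩
          exact ⟨i, hi1, hi2, by rw [← ih i hi2 hi1]; exact hi3⟩
        · rintro ⟨i, hi1, hi2, hi3⟩
          exact ⟨i, hi1, hi2, by rw [ih i hi2 hi1]; exact hi3⟩
      have hA := coffee_spec ha k
      rw [hset, ih (k + 1) (by omega) (by omega), ih (k + 2) (by omega) (by omega)] at hA
      exact hA.unique (coffee_spec hb k)
  · intro a ha
    have hc := coffee_core ha
    have conv : ∀ {m : ℕ}, (¬ ∃ n, 1 ≤ n ∧ a n = m) → ∀ i, (fun n => a (n + 1)) i ≠ m :=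
      fun h i hi => h ⟨i + 1, by omega, hi⟩
    by_cases hex : ∃ m, 0 < m ∧ ¬ ∃ n, 1 ≤ n ∧ a n = m
    · obtain ⟨m0, hm0, hmiss0⟩ := hex
      right
      refine ⟨m0.primeFactors, ?_, ?_, ?_, ?_⟩
      · rw [Nat.nonempty_primeFactors]
        by_contra hlt
        have h1 : m0 = 1 := by omega
        exact hmiss0 ⟨1, le_refl 1, by rw [ha.one, h1]⟩
      · intro p hp
        refine ⟨Nat.prime_of_mem_primeFactors hp, ?_⟩
        rintro rfl
        exact two_not_mem hc (bad_of_missing hc hm0 (conv hmiss0)) hp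
      · rintro m hm (hpr | hne)
        · exact coffee_prime ha hpr
        · by_contra hmiss
          exact hne (unique_radical hc hm hm0 (conv hmiss) (conv hmiss0))
      · refine (finite_of_missing hc hm0 (conv hmiss0)).subset ?_
        rintro x ⟨⟨n, hn, rfl⟩, hx⟩
        refine ⟨⟨n - 1, ?_⟩, hx⟩
        show a (n - 1 + 1) = a n
        rw [Nat.sub_add_cancel hn]
    · left
      intro m hm
      by_contra hmiss
      exact hex ⟨m, hm, hmiss⟩

end Pool.Agent.Results.MP_ab534e_nt.OneRadical
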